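import Pool.Agent.helper32.PN.Spec

set_option autoImplicit false

/-!
# PN (MP_405bd9_al), row pn:LST: the limit for one outside part
-/

namespace Pool.Agent.PN

open Module Polynomial Pool.Agent.helper27.PC

theorem LST_ratio (M : ℕ) :
    Filter.Tendsto (fun k : ℕ => ((k - M : ℕ) : ℝ) / k) Filter.atTop (nhds 1) := by
  have h1 : Filter.Tendsto (fun k : ℕ => 1 - (M : ℝ) / k) Filter.atTop (nhds (1 - 0)) :=
    tendsto_const_nhds.sub (tendsto_const_div_atTop_nhds_zero_nat (M : ℝ))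
  rw [sub_zero] at h1
  refine h1.congr' ?_
  filter_upwards [Filter.eventually_ge_atTop (M + 1)] with k hk
  have hk0 : (k : ℝ) ≠ 0 := by
    have : (0 : ℝ) < k := by exact_mod_cast (by omega : 0 < k)
    exact this.ne'
  rw [Nat.cast_sub (by omega)]
  field_simp

theorem LST_phi (K i N : ℕ) (φ : ℕ → ℕ)
    (h : ∀ k, i + K < k → (k - (K + 1)).choose i * N ≤ φ k ∧ φ k ≤ k.choose i * N) :
    Filter.Tendsto (fun k : ℕ => (φ k : ℝ) / (k : ℝ) ^ i) Filter.atTop
      (nhds ((N : ℝ) / i.factorial)) := by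
  have h1 : Filter.Tendsto (fun k : ℕ => (((k - (K + i) : ℕ) : ℝ) / k) ^ i * ((N : ℝ) / i.factorial))
      Filter.atTop (nhds (1 ^ i * ((N : ℝ) / i.factorial))) :=
    ((LST_ratio (K + i)).pow i).mul_const _
  rw [one_pow, one_mul] at h1
  refine tendsto_of_tendsto_of_tendsto_of_le_of_le' h1 tendsto_const_nhds ?_ ?_
  · filter_upwards [Filter.eventually_gt_atTop (i + K)] with k hk
    have hk0 : (0 : ℝ) < (k : ℝ) := by exact_mod_cast (by omega : 0 < k)
    have h2 := (h k hk).1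
    have h3 := Nat.pow_le_choose (α := ℝ) i (k - (K + 1))
    have h4 : k - (K + 1) + 1 - i = k - (K + i) := by omega
    rw [h4] at h3
    have h5 : (((k - (K + 1)).choose i * N : ℕ) : ℝ) ≤ φ k := by exact_mod_cast h2
    push_cast at h5
    rw [div_pow, le_div_iff₀ (by positivity)]
    calc ((k - (K + i) : ℕ) : ℝ) ^ i / (k : ℝ) ^ i * ((N : ℝ) / i.factorial) * (k : ℝ) ^ i =
        ((k - (K + i) : ℕ) : ℝ) ^ i / i.factorial * N := by
          field_simp
      _ ≤ ((k - (K + 1)).choose i : ℝ) * N := mul_le_mul_of_nonneg_right h3 (Nat.cast_nonneg _)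
      _ ≤ φ k := h5
  · filter_upwards [Filter.eventually_gt_atTop (i + K)] with k hk
    have hk0 : (0 : ℝ) < (k : ℝ) := by exact_mod_cast (by omega : 0 < k)
    have h2 := (h k hk).2
    have h3 := Nat.choose_le_pow_div (α := ℝ) i k
    have h5 : (φ k : ℝ) ≤ ((k.choose i * N : ℕ) : ℝ) := by exact_mod_cast h2
    push_cast at h5
    rw [div_le_iff₀ (by positivity)]
    calc (φ k : ℝ) ≤ (k.choose i : ℝ) * N := h5
      _ ≤ (k : ℝ) ^ i / i.factorial * N := mul_le_mul_of_nonneg_right h3 (Nat.cast_nonneg _)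
      _ = _ := by ring

/-- the product of two monomial families and a monomial -/
theorem LST_prod (P P' : ℕ → ℤ[X]) (φ φ' e e' x : ℕ → ℕ) (i i' J k₀ : ℕ) (o o' ox z ε : ℤ)
    (A A' : ℝ) (hJ : 1 ≤ J)
    (hP : ∀ k, k₀ ≤ k → P k = (φ k : ℤ[X]) * X ^ e k ∧ 2 * (e k : ℤ) = 2 * k * i + o)
    (hP' : ∀ k, k₀ ≤ k → P' k = (φ' k : ℤ[X]) * X ^ e' k ∧ 2 * (e' k : ℤ) = 2 * k * i' + o')
    (hx : ∀ k, k₀ ≤ k → 2 * (x k : ℤ) = 2 * k + ox)
    (hφ : Filter.Tendsto (fun k : ℕ => (φ k : ℝ) / (k : ℝ) ^ i) Filter.atTop (nhds A))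
    (hφ' : Filter.Tendsto (fun k : ℕ => (φ' k : ℝ) / (k : ℝ) ^ i') Filter.atTop (nhds A')) :
    Filter.Tendsto (fun k : ℕ => (((P k * (C ε * X ^ x k * P' k)).coeff (2 * J * k + z).toNat : ℤ) : ℝ) /
      (k : ℝ) ^ (2 * J - 1)) Filter.atTop
      (nhds (if i + i' + 1 = 2 * J ∧ o + o' + ox = 2 * z then (ε : ℝ) * (A * A') else 0)) := by
  have hco : ∀ k, k₀ ≤ k → (P k * (C ε * X ^ x k * P' k)).coeff (2 * J * k + z).toNat =
      if (2 * J * k + z).toNat = e k + x k + e' k then ε * (φ k * φ' k) else 0 := by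
    intro k hk
    rw [(hP k hk).1, (hP' k hk).1]
    have e1 : (φ k : ℤ[X]) * X ^ e k * (C ε * X ^ x k * ((φ' k : ℤ[X]) * X ^ e' k)) =
        C (ε * ((φ k : ℤ) * (φ' k : ℤ))) * X ^ (e k + x k + e' k) := by
      rw [pow_add, pow_add, C_mul, C_mul]
      simp only [map_natCast]
      ring
    rw [e1, coeff_C_mul_X_pow]
  have hz : ∀ k : ℕ, z.natAbs ≤ k → ((2 * J * k + z).toNat : ℤ) = 2 * J * k + z := by
    intro k hk
    refine Int.toNat_of_nonneg ?_
    have h1 : (z.natAbs : ℤ) ≤ k := by exact_mod_cast hk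
    have h2 : -(z.natAbs : ℤ) ≤ z := by omega
    have h3 : (k : ℤ) ≤ 2 * J * k := by
      have : (1 : ℤ) ≤ 2 * J := by
        have : (1 : ℤ) ≤ J := by exact_mod_cast hJ
        linarith
      calc (k : ℤ) = 1 * k := (one_mul _).symm
        _ ≤ 2 * J * k := mul_le_mul_of_nonneg_right this (by positivity)
    linarith
  by_cases hc : i + i' + 1 = 2 * J ∧ o + o' + ox = 2 * z
  · rw [if_pos hc]
    have h1 : Filter.Tendsto (fun k : ℕ => (ε : ℝ) * ((φ k : ℝ) / (k : ℝ) ^ i *
        ((φ' k : ℝ) / (k : ℝ) ^ i'))) Filter.atTop (nhds ((ε : ℝ) * (A * A'))) :=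
      (hφ.mul hφ').const_mul _
    refine h1.congr' ?_
    filter_upwards [Filter.eventually_ge_atTop (k₀ + z.natAbs + 1)] with k hk
    have hk1 : k₀ ≤ k := by omega
    rw [hco k hk1, if_pos]
    · have h2 : 2 * J - 1 = i + i' := by omega
      have hk0 : (0 : ℝ) < (k : ℝ) := by exact_mod_cast (by omega : 0 < k)
      rw [h2, pow_add]
      push_cast
      field_simp
    · have h3 := hz k (by omega)
      have h4 := (hP k hk1).2
      have h5 := (hP' k hk1).2
      have h6 := hx k hk1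
      have h7 : (i : ℤ) + i' + 1 = 2 * J := by exact_mod_cast hc.1
      have h8 : 2 * ((e k : ℤ) + x k + e' k) = 2 * (2 * J * k + z) := by
        have : 2 * ((e k : ℤ) + x k + e' k) = 2 * k * ((i : ℤ) + i' + 1) + (o + o' + ox) := by
          linarith
        rw [this, h7, hc.2]
        ring
      have h9 : (((2 * J * k + z).toNat : ℕ) : ℤ) = ((e k + x k + e' k : ℕ) : ℤ) := by
        rw [h3]
        push_cast
        linarith
      exact_mod_cast h9
  · rw [if_neg hc]
    refine tendsto_const_nhds.congr' ?_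
    filter_upwards [Filter.eventually_ge_atTop (k₀ + z.natAbs + (o + o' + ox - 2 * z).natAbs + 1)]
      with k hk
    have hk1 : k₀ ≤ k := by omega
    rw [hco k hk1, if_neg]
    · simp
    · intro heq
      have h3 := hz k (by omega)
      have h4 := (hP k hk1).2
      have h5 := (hP' k hk1).2
      have h6 := hx k hk1
      rw [heq] at h3
      push_cast at h3
      have h8 : 2 * (k : ℤ) * ((i : ℤ) + i' + 1 - 2 * J) = -(o + o' + ox - 2 * z) := by linarith
      have hkk : (o + o' + ox - 2 * z).natAbs + 1 ≤ k := by omega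
      have h10 : (o + o' + ox - 2 * z).natAbs < k := by omega
      obtain ⟨w, hw⟩ : ∃ w : ℤ, w = (i : ℤ) + i' + 1 - 2 * J := ⟨_, rfl⟩
      rw [← hw] at h8
      have h11 : w = 0 := by
        by_contra hne
        have h12 : (1 : ℤ) ≤ |w| := Int.one_le_abs hne
        have h13 : |2 * (k : ℤ) * w| = |o + o' + ox - 2 * z| := by
          rw [h8, abs_neg]
        rw [abs_mul, abs_mul, abs_two, Nat.abs_cast] at h13
        have h14 : |o + o' + ox - 2 * z| < k := by
          rw [Int.abs_eq_natAbs]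
          exact_mod_cast h10
        nlinarith
      rw [h11, mul_zero] at h8
      apply hc
      constructor
      · have : (i : ℤ) + i' + 1 = 2 * J := by linarith
        exact_mod_cast this
      · linarith

theorem LST_toNat (J k : ℕ) (z : ℤ) : (2 * (J : ℤ) * k + z).toNat ≤ 2 * J * k + z.natAbs := by
  have h : (2 * (J : ℤ) * k : ℤ) = ((2 * J * k : ℕ) : ℤ) := by
    push_cast
    ring
  rw [h]
  generalize 2 * J * k = w
  omega

/-- the square of a monomial family -/
theorem LST_sq (P : ℕ → ℤ[X]) (φ e : ℕ → ℕ) (i J k₀ : ℕ) (o z : ℤ) (hJ : 1 ≤ J)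
    (hP : ∀ k, k₀ ≤ k → P k = (φ k : ℤ[X]) * X ^ e k ∧ 2 * (e k : ℤ) = 2 * k * i + o)
    (hne : ¬ (i = J ∧ o = z)) :
    Filter.Tendsto (fun k : ℕ => (((P k ^ 2).coeff (2 * J * k + z).toNat : ℤ) : ℝ) /
      (k : ℝ) ^ (2 * J - 1)) Filter.atTop (nhds 0) := by
  refine tendsto_const_nhds.congr' ?_
  filter_upwards [Filter.eventually_ge_atTop (k₀ + z.natAbs + (o - z).natAbs + 1)] with k hk
  have hk1 : k₀ ≤ k := by omega
  have h1 : P k ^ 2 = C ((φ k : ℤ) ^ 2) * X ^ (e k + e k) := by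
    rw [(hP k hk1).1, pow_add, C_pow]
    simp only [map_natCast]
    ring
  rw [h1, coeff_C_mul_X_pow, if_neg]
  · simp
  · intro heq
    have h3 : ((2 * (J : ℤ) * k + z).toNat : ℤ) = 2 * J * k + z := by
      refine Int.toNat_of_nonneg ?_
      have h1 : (z.natAbs : ℤ) ≤ k := by
        have : z.natAbs ≤ k := by omega
        exact_mod_cast this
      have h2 : -(z.natAbs : ℤ) ≤ z := by omega
      have h3 : (k : ℤ) ≤ 2 * J * k := by
        have : (1 : ℤ) ≤ 2 * J := by
          have : (1 : ℤ) ≤ J := by exact_mod_cast hJ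
          linarith
        calc (k : ℤ) = 1 * k := (one_mul _).symm
          _ ≤ 2 * J * k := mul_le_mul_of_nonneg_right this (by positivity)
      linarith
    have h4 := (hP k hk1).2
    rw [heq] at h3
    push_cast at h3
    have h8 : 2 * (k : ℤ) * ((i : ℤ) - J) = -(o - z) := by linarith
    have h10 : (o - z).natAbs < k := by omega
    obtain ⟨w, hw⟩ : ∃ w : ℤ, w = (i : ℤ) - J := ⟨_, rfl⟩
    rw [← hw] at h8
    have h11 : w = 0 := by
      by_contra hne'
      have h12 : (1 : ℤ) ≤ |w| := Int.one_le_abs hne'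
      have h13 : |2 * (k : ℤ) * w| = |o - z| := by
        rw [h8, abs_neg]
      rw [abs_mul, abs_mul, abs_two, Nat.abs_cast] at h13
      have h14 : |o - z| < k := by
        rw [Int.abs_eq_natAbs]
        exact_mod_cast h10
      nlinarith
    rw [h11, mul_zero] at h8
    apply hne
    constructor
    · have : (i : ℤ) = J := by linarith
      exact_mod_cast this
    · linarith

/-- small families do not contribute -/
theorem LST_small (hSMC : SMC_stmt) (p : ℕ → ℤ[X]) (hp : Sm 2 p) (J : ℕ) (hJ : 1 ≤ J) (z : ℤ) :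
    Filter.Tendsto (fun k : ℕ => (((p k).coeff (2 * J * k + z).toNat : ℤ) : ℝ) /
      (k : ℝ) ^ (2 * J - 1)) Filter.atTop (nhds 0) := by
  obtain ⟨-, -, -, -, -, -, hbd⟩ := hSMC
  obtain ⟨B, hB⟩ := hbd 2 (2 * J) z.natAbs p (by omega) hp
  refine squeeze_zero_norm' ?_ (tendsto_const_div_atTop_nhds_zero_nat (B : ℝ))
  filter_upwards [Filter.eventually_ge_atTop (B + 1)] with k hk
  have hk0 : (0 : ℝ) < (k : ℝ) := by exact_mod_cast (by omega : 0 < k)
  have h1 := hB k (by omega) _ (LST_toNat J k z)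
  have h2 : |(((p k).coeff (2 * J * k + z).toNat : ℤ) : ℝ)| ≤ B * (k : ℝ) ^ (2 * J - 2) := by
    exact_mod_cast h1
  rw [Real.norm_eq_abs, abs_div, abs_of_pos (pow_pos hk0 _)]
  have h3 : 2 * J - 1 = (2 * J - 2) + 1 := by omega
  rw [h3, pow_succ, div_le_div_iff₀ (by positivity) hk0]
  calc |(((p k).coeff (2 * J * k + z).toNat : ℤ) : ℝ)| * k ≤ B * (k : ℝ) ^ (2 * J - 2) * k :=
        mul_le_mul_of_nonneg_right h2 hk0.le
    _ = _ := by ring

/-- the family `V0f` -/
theorem LST_V0 (hA0 : A0_stmt) (t s : Bool) (K i : ℕ) (hts : tb t s = 0) (ρ : List ℕ) (q : ℕ)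
    (T : St) (hi : i ≤ K) (hT : T ∈ ends i (base s K)) : ∃ φ e : ℕ → ℕ,
    (∀ k, i + K + 1 ≤ k → V0f t s K ρ q i T k = (φ k : ℤ[X]) * X ^ e k ∧
      2 * (e k : ℤ) = 2 * k * i + o0 t s K ρ.length i T) ∧
    Filter.Tendsto (fun k : ℕ => (φ k : ℝ) / (k : ℝ) ^ i) Filter.atTop
      (nhds ((np i (base s K) T : ℝ) / i.factorial)) := by
  have h := hA0 t s K (ρ.sum + q) i T hi hT
  have h' : ∀ k, ∃ φ e : ℕ, i + K < k → Af t s K [] (ρ.sum + q) i T k = (φ : ℤ[X]) * X ^ e ∧
    2 * (e : ℤ) = 2 * k * i - i * (i + 1) + 2 * tb t s * (k - i) + (pt t K T - pt t K (base s K)) ∧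
    (k - (K + 1)).choose i * np i (base s K) T ≤ φ ∧ φ ≤ k.choose i * np i (base s K) T := by
    intro k
    by_cases hk : i + K < k
    · obtain ⟨φ, e, h1⟩ := h k hk
      exact ⟨φ, e, fun _ => h1⟩
    · exact ⟨0, 0, fun h => absurd h hk⟩
  choose φ e hφ using h'
  refine ⟨φ, fun k => ρ.length * i + e k, fun k hk => ?_, LST_phi K i _ φ fun k hk => ?_⟩
  · obtain ⟨h1, h2, -, -⟩ := hφ k (by omega)
    constructor
    · unfold V0f
      rw [h1, hts, add_zero, pow_add]
      ring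
    · rw [hts] at h2
      unfold o0
      push_cast at h2 ⊢
      linarith
  · exact (hφ k hk).2.2

theorem LST (hA0 : A0_stmt) (hEXPN : EXPN_stmt) (hSMC : SMC_stmt) (hHOL : HOL_stmt) :
    LST_stmt := by
  intro t s K ρ J z i T hρ hJ hiK hT hne
  obtain ⟨hV0, hV1, hR⟩ := hEXPN t s K ρ 0 i T hρ hiK hT
  obtain ⟨-, hadd, hmul, hmono, -, -, -⟩ := id hSMC
  by_cases hts : (t && s) = true
  · -- the component with `tb = 1`
    have htb : tb t s = 1 := by
      unfold tb
      rw [if_pos hts]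
    rw [htb] at hV0 hV1 hR
    have h1 := hadd 1 _ _ (hadd 1 _ _ hV0 (hmono _ 1 _ (by norm_num) hV1)) (hmono _ 1 _ (by norm_num) hR)
    have h2 := hmul 1 1 _ _ h1 h1
    have h3 := LST_small hSMC _ h2 J hJ z
    have h4 : ell t s K ρ J z i T = 0 := by
      unfold ell
      rw [if_pos hts]
    rw [h4, Rat.cast_zero]
    refine h3.congr fun k => ?_
    have h5 : (V0f t s K ρ 0 i T k + V1f t s K ρ 0 i T k +
        (Af t s K ρ 0 i T k - V0f t s K ρ 0 i T k - V1f t s K ρ 0 i T k)) *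
        (V0f t s K ρ 0 i T k + V1f t s K ρ 0 i T k +
        (Af t s K ρ 0 i T k - V0f t s K ρ 0 i T k - V1f t s K ρ 0 i T k)) =
        Af t s K ρ 0 i T k ^ 2 := by ring
    rw [h5]
  · have htb : tb t s = 0 := by
      unfold tb
      rw [if_neg hts]
    rw [htb] at hV0 hV1 hR
    have hW1 := hmul _ _ _ _ hV1 hV1
    have hW2 := hmul _ _ _ _ hV0 hR
    have hW3 := hmono _ 2 _ (by norm_num) (hmul _ _ _ _ hV1 hR)
    have hW4 := hmono _ 2 _ (by norm_num) (hmul _ _ _ _ hR hR)
    have hW := hadd 2 _ _ (hadd 2 _ _ (hadd 2 _ _ hW1 (hadd 2 _ _ hW2 hW2)) (hadd 2 _ _ hW3 hW3)) hW4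
    have hWlim := LST_small hSMC _ hW J hJ z
    obtain ⟨φ, e, hP, hφ⟩ := LST_V0 hA0 t s K i htb ρ 0 T hiK hT
    have hsq := LST_sq (V0f t s K ρ 0 i T) φ e i J (i + K + 1) _ z hJ hP
      (fun h => hne hts h.1 (by rw [← h.1]; exact h.2))
    -- the mixed term
    have hterm : ∀ j ∈ Finset.range ρ.length, ∀ y ∈ remv (ρ.getD j 0) T,
        Filter.Tendsto (fun k : ℕ => (((V0f t s K ρ 0 i T k * ((-1) ^ cnt T (dn (ρ.getD j 0) y) (ρ.getD j 0) *
          X ^ (j * (i + tb t s) + (k + (ρ.drop (j + 1)).sum + y.2 + tb t y.1 - K)) *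
          V0f t s K (ρ.drop (j + 1)) (0 + (ρ.take (j + 1)).sum) (i - ρ.getD j 0)
            (rem (ρ.getD j 0) T y) k)).coeff (2 * J * k + z).toNat : ℤ) : ℝ) /
          (k : ℝ) ^ (2 * J - 1)) Filter.atTop
        (nhds (if 2 * i + 1 = 2 * J + ρ.getD j 0 ∧
          off t s K ρ j i (i - ρ.getD j 0) T (rem (ρ.getD j 0) T y) (y.2 + tb t y.1) = 2 * z then
          (-1 : ℝ) ^ cnt T (dn (ρ.getD j 0) y) (ρ.getD j 0) *
          (np i (base s K) T * np (i - ρ.getD j 0) (base s K) (rem (ρ.getD j 0) T y)) /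
          (i.factorial * (i - ρ.getD j 0).factorial) else 0)) := by
      intro j hj y hy
      have hj' : j < ρ.length := Finset.mem_range.1 hj
      have hc : ρ.getD j 0 ∈ ρ := by
        rw [List.getD_eq_getElem _ _ hj']
        exact List.getElem_mem hj'
      have hodd := hρ _ hc
      generalize ρ.getD j 0 = c at hy hc hodd ⊢
      have hc1 : 1 ≤ c := hodd.pos
      obtain ⟨hci, hT', -, -, -⟩ := (hHOL s K i T hT).2.2.1 c hc1 y hy
      obtain ⟨φ', e', hP', hφ'⟩ := LST_V0 hA0 t s K (i - c) htb (ρ.drop (j + 1))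
        (0 + (ρ.take (j + 1)).sum) (rem c T y) (by omega) hT'
      have hprod := LST_prod (V0f t s K ρ 0 i T) (V0f t s K (ρ.drop (j + 1))
        (0 + (ρ.take (j + 1)).sum) (i - c) (rem c T y)) φ φ' e e'
        (fun k => j * (i + tb t s) + (k + (ρ.drop (j + 1)).sum + y.2 + tb t y.1 - K)) i (i - c) J
        (i + K + 1) _ _ (2 * (j * i + (ρ.drop (j + 1)).sum + y.2 + tb t y.1 - K)) z
        ((-1) ^ cnt T (dn c y) c) _ _ hJ hP (fun k hk => hP' k (by omega)) (fun k hk => by
          have : K ≤ k + (ρ.drop (j + 1)).sum + y.2 + tb t y.1 := by omega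
          rw [htb]
          push_cast [Nat.cast_sub this]
          ring) hφ hφ'
      have hC : (C ((-1 : ℤ) ^ cnt T (dn c y) c) : ℤ[X]) = (-1) ^ cnt T (dn c y) c := by
        rw [C_pow, C_neg, C_1]
      rw [hC] at hprod
      have hlen : ((ρ.drop (j + 1)).length : ℤ) = ρ.length - 1 - j := by
        rw [List.length_drop, Nat.cast_sub (by omega)]
        push_cast
        ring
      have hoff : o0 t s K ρ.length i T + o0 t s K (ρ.drop (j + 1)).length (i - c) (rem c T y) +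
          2 * (j * i + (ρ.drop (j + 1)).sum + y.2 + tb t y.1 - K) =
          off t s K ρ j i (i - c) T (rem c T y) (y.2 + tb t y.1) := by
        unfold off
        rw [add_assoc, add_right_inj]
        unfold o0
        rw [hlen]
        ring
      rw [hoff] at hprod
      have hcond : (i + (i - c) + 1 = 2 * J) ↔ (2 * i + 1 = 2 * J + c) := by omega
      simp only [hcond] at hprod
      have hval : ((((-1 : ℤ) ^ cnt T (dn c y) c : ℤ) : ℝ) *
          ((np i (base s K) T : ℝ) / i.factorial *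
            ((np (i - c) (base s K) (rem c T y) : ℝ) / (i - c).factorial))) =
          (-1 : ℝ) ^ cnt T (dn c y) c *
          (np i (base s K) T * np (i - c) (base s K) (rem c T y)) /
          (i.factorial * (i - c).factorial) := by
        push_cast
        ring
      rw [hval] at hprod
      exact hprod
    obtain ⟨L, hL⟩ : ∃ L : ℝ, L = ∑ j ∈ Finset.range ρ.length, ∑ y ∈ remv (ρ.getD j 0) T,
          (if 2 * i + 1 = 2 * J + ρ.getD j 0 ∧
          off t s K ρ j i (i - ρ.getD j 0) T (rem (ρ.getD j 0) T y) (y.2 + tb t y.1) = 2 * z then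
          (-1 : ℝ) ^ cnt T (dn (ρ.getD j 0) y) (ρ.getD j 0) *
          (np i (base s K) T * np (i - ρ.getD j 0) (base s K) (rem (ρ.getD j 0) T y)) /
          (i.factorial * (i - ρ.getD j 0).factorial) else 0) := ⟨_, rfl⟩
    have hsum : Filter.Tendsto (fun k : ℕ => (((V0f t s K ρ 0 i T k * V1f t s K ρ 0 i T k).coeff
        (2 * J * k + z).toNat : ℤ) : ℝ) / (k : ℝ) ^ (2 * J - 1)) Filter.atTop (nhds L) := by
      have h1 := tendsto_finsetSum (Finset.range ρ.length) fun j hj =>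
        tendsto_finsetSum (remv (ρ.getD j 0) T) fun y hy => hterm j hj y hy
      rw [← hL] at h1
      refine h1.congr fun k => ?_
      unfold V1f
      rw [Finset.mul_sum, finsetSum_coeff, Int.cast_sum, Finset.sum_div]
      refine Finset.sum_congr rfl fun j _ => ?_
      rw [Finset.mul_sum, finsetSum_coeff, Int.cast_sum, Finset.sum_div]
    have hall := (hsq.add (hsum.add hsum)).add hWlim
    have hlim : (0 + (L + L) + 0 : ℝ) = ((ell t s K ρ J z i T : ℚ) : ℝ) := by
      rw [hL]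
      unfold ell
      rw [if_neg hts, Rat.cast_mul, Rat.cast_sum, Rat.cast_ofNat, zero_add, add_zero, ← two_mul]
      congr 1
      refine Finset.sum_congr rfl fun j _ => ?_
      rw [Rat.cast_sum]
      refine Finset.sum_congr rfl fun y _ => ?_
      split_ifs with h
      · push_cast
        ring
      · rw [Rat.cast_zero]
    rw [hlim] at hall
    refine hall.congr fun k => ?_
    rw [← add_div, ← add_div, ← add_div, ← Int.cast_add, ← Int.cast_add, ← Int.cast_add,
      ← coeff_add, ← coeff_add, ← coeff_add]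
    have h5 : V0f t s K ρ 0 i T k ^ 2 + (V0f t s K ρ 0 i T k * V1f t s K ρ 0 i T k +
        V0f t s K ρ 0 i T k * V1f t s K ρ 0 i T k) +
        (V1f t s K ρ 0 i T k * V1f t s K ρ 0 i T k +
          (V0f t s K ρ 0 i T k * (Af t s K ρ 0 i T k - V0f t s K ρ 0 i T k - V1f t s K ρ 0 i T k) +
            V0f t s K ρ 0 i T k * (Af t s K ρ 0 i T k - V0f t s K ρ 0 i T k - V1f t s K ρ 0 i T k)) +
          (V1f t s K ρ 0 i T k * (Af t s K ρ 0 i T k - V0f t s K ρ 0 i T k - V1f t s K ρ 0 i T k) +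
            V1f t s K ρ 0 i T k * (Af t s K ρ 0 i T k - V0f t s K ρ 0 i T k - V1f t s K ρ 0 i T k)) +
          (Af t s K ρ 0 i T k - V0f t s K ρ 0 i T k - V1f t s K ρ 0 i T k) *
            (Af t s K ρ 0 i T k - V0f t s K ρ 0 i T k - V1f t s K ρ 0 i T k)) =
        Af t s K ρ 0 i T k ^ 2 := by ring
    rw [h5]

end Pool.Agent.PN
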